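import Pool.Agent.H.MP_ddfcce_an.D

namespace Pool.Agent.Results.MP_ddfcce_an.Yes
open Module Finset
open scoped ENNReal

/-- Evaluation of a linear equivalence. -/
def ap {R M M' : Type} [Semiring R] [AddCommMonoid M] [AddCommMonoid M'] [Module R M]
    [Module R M'] (e : M ≃ₗ[R] M') (x : M) : M' := e x

/-- Singular values in decreasing order, starting from index `0`. -/
noncomputable def sing {𝕜 E : Type} [RCLike 𝕜] [NormedAddCommGroup E] [InnerProductSpace 𝕜 E]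
    [FiniteDimensional 𝕜 E] (T : E →ₗ[𝕜] E) (j : ℕ) : ℝ := T.singularValues j

/-- The Kolmogorov numbers of the identity from `(V, a)` to `(V, b)`. -/
noncomputable def kol (𝕜 : Type) {V : Type} [Field 𝕜] [AddCommGroup V] [Module 𝕜 V]
    (a b : V → ℝ) (n : ℕ) : ℝ≥0∞ :=
  ⨅ (L : Submodule 𝕜 V) (_ : finrank 𝕜 L < n),
    ⨆ (x : V) (_ : a x ≤ 1), ⨅ y ∈ L, ENNReal.ofReal (b (x - y))

variable {𝕜 : Type} [RCLike 𝕜] {N : ℕ}

/-- The linear map of Euclidean space given by a matrix. -/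
noncomputable def op (A : Matrix (Fin N) (Fin N) 𝕜) :
    EuclideanSpace 𝕜 (Fin N) →ₗ[𝕜] EuclideanSpace 𝕜 (Fin N) := ap Matrix.toEuclideanLin A

/-- The Schatten quasi-norm. -/
noncomputable def sch (p : ℝ≥0∞) (A : Matrix (Fin N) (Fin N) 𝕜) : ℝ :=
  if p = ⊤ then sing (op A) 0 else (∑ j ∈ range N, sing (op A) j ^ p.toReal) ^ (1 / p.toReal)

theorem result (𝕜 : Type) [RCLike 𝕜] (p q : ℝ≥0∞) (hq : 0 < q) (hq1 : q ≤ 1) (hp : q ≤ p) :
    ∃ c : ℝ, 0 < c ∧ ∀ N n : ℕ, 1 ≤ n → n ≤ N ^ 2 →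
      ENNReal.ofReal (c * max 1 (((N : ℝ) ^ 2 - n + 1) / N) ^ (q⁻¹.toReal - p⁻¹.toReal)) ≤
        kol 𝕜 (V := Matrix (Fin N) (Fin N) 𝕜) (sch p) (sch q) n :=
  H.MP_ddfcce_an.main 𝕜 p q hq hq1 hp

end Pool.Agent.Results.MP_ddfcce_an.Yes
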